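import Pool.Agent.Helper86.QA.St3

/-!
# Project QD, part A (MP_d112a4_gt): module ARC, the area cocycle of the upper half plane
-/

set_option autoImplicit false

open MeasureTheory Matrix Set Topology
open scoped ENNReal ComplexConjugate

namespace Pool.Agent.Helper66.QA

open Pool.Agent.Helper86.QA

/-- the argument occurring in `be` -/
private noncomputable def ww (p q : ℂ) : ℂ := (p - conj q) / Complex.I

private theorem ww_re (p q : ℂ) : (ww p q).re = p.im + q.im := by
  unfold ww
  rw [Complex.div_I]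
  simp

private theorem ww_im (p q : ℂ) : (ww p q).im = -(p.re - q.re) := by
  unfold ww
  rw [Complex.div_I]
  simp

private theorem ww_pos (p q : ℂ) (hp : p ∈ HP) (hq : q ∈ HP) : 0 < (ww p q).re := by
  rw [ww_re]
  exact add_pos hp hq

private theorem ww_ne (p q : ℂ) (hp : p ∈ HP) (hq : q ∈ HP) : ww p q ≠ 0 := by
  intro h
  have h1 := ww_pos p q hp hq
  rw [h] at h1
  simp at h1

private theorem arg_lt (z : ℂ) (hz : 0 < z.re) : |Complex.arg z| < Real.pi / 2 :=
  Complex.abs_arg_lt_pi_div_two_iff.2 (Or.inl hz)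

private theorem be_eq (p q : ℂ) : be p q = 2 * Complex.arg (ww p q) := rfl

private theorem be_arctan (p q : ℂ) (hp : p ∈ HP) (hq : q ∈ HP) :
    be p q = -2 * Real.arctan ((p.re - q.re) / (p.im + q.im)) := by
  have h1 := arg_lt _ (ww_pos p q hp hq)
  rw [abs_lt] at h1
  have h2 : Complex.arg (ww p q) = Real.arctan ((ww p q).im / (ww p q).re) := by
    rw [← Complex.tan_arg, Real.arctan_tan h1.1 h1.2]
  rw [be_eq, h2, ww_re, ww_im, neg_div, Real.arctan_neg]
  ring

private theorem be_antisymm (p q : ℂ) (hp : p ∈ HP) (hq : q ∈ HP) : be q p = -be p q := by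
  rw [be_arctan p q hp hq, be_arctan q p hq hp, add_comm q.im p.im, ← neg_sub p.re q.re, neg_div,
    Real.arctan_neg]
  ring

private theorem be_bound (p q : ℂ) (hp : p ∈ HP) (hq : q ∈ HP) : |be p q| ≤ Real.pi := by
  rw [be_eq, abs_mul, abs_of_pos (by norm_num : (0 : ℝ) < 2)]
  have h1 := arg_lt _ (ww_pos p q hp hq)
  linarith

private theorem real_mob (σ : SL) (hσ : IsR σ) (p : ℂ) (hp : p ∈ HP) :
    mb σ p ∈ HP ∧ σ 1 0 * p + σ 1 1 ≠ 0 ∧ (mb σ p).im = p.im / ‖σ 1 0 * p + σ 1 1‖ ^ 2 := by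
  have hp0 : 0 < p.im := hp
  have hdet : σ 0 0 * σ 1 1 - σ 0 1 * σ 1 0 = 1 := by
    have h := σ.det_coe
    rw [Matrix.det_fin_two] at h
    exact h
  have h00 := hσ 0 0
  have h01 := hσ 0 1
  have h10 := hσ 1 0
  have h11 := hσ 1 1
  have hdr : (σ 0 0).re * (σ 1 1).re - (σ 0 1).re * (σ 1 0).re = 1 := by
    have h := congrArg Complex.re hdet
    simp only [Complex.sub_re, Complex.mul_re, Complex.one_re, h00, h01, h10, h11, mul_zero, sub_zero] at h
    exact h
  have hne : σ 1 0 * p + σ 1 1 ≠ 0 := by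
    intro h
    have him := congrArg Complex.im h
    have hre := congrArg Complex.re h
    simp only [Complex.add_im, Complex.mul_im, Complex.zero_im, h10, h11, zero_mul, add_zero] at him
    simp only [Complex.add_re, Complex.mul_re, Complex.zero_re, h10, zero_mul, sub_zero] at hre
    have hc : (σ 1 0).re = 0 := by
      rcases mul_eq_zero.1 him with h1 | h1
      · exact h1
      · exact absurd h1 hp0.ne'
    rw [hc, zero_mul, zero_add] at hre
    rw [hc, hre] at hdr
    simp at hdr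
  have him : (mb σ p).im = p.im / ‖σ 1 0 * p + σ 1 1‖ ^ 2 := by
    unfold mb
    rw [Complex.div_im, Complex.normSq_eq_norm_sq, ← sub_div]
    congr 1
    simp only [Complex.add_im, Complex.mul_im, Complex.add_re, Complex.mul_re, h00, h01, h10, h11, zero_mul,
      add_zero, sub_zero]
    linear_combination p.im * hdr
  refine ⟨?_, hne, him⟩
  show 0 < (mb σ p).im
  rw [him]
  have := norm_pos_iff.2 hne
  positivity

private theorem conj_real (z : ℂ) (hz : z.im = 0) : conj z = z := Complex.conj_eq_iff_im.2 hz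

private theorem arg_J (c d : ℂ) (hc : c.im = 0) (hd : d.im = 0) (p q : ℂ) (hp : p ∈ HP) (hq : q ∈ HP) :
    |Complex.arg (c * p + d) - Complex.arg (c * q + d)| < Real.pi ∨
      Complex.arg (c * p + d) = Complex.arg (c * q + d) := by
  have hp0 : 0 < p.im := hp
  have hq0 : 0 < q.im := hq
  have him : ∀ z : ℂ, (c * z + d).im = c.re * z.im := by
    intro z
    simp [hc, hd]
  have e1 := Complex.arg_le_pi (c * p + d)
  have e2 := Complex.arg_le_pi (c * q + d)
  have e3 := Complex.neg_pi_lt_arg (c * p + d)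
  have e4 := Complex.neg_pi_lt_arg (c * q + d)
  rcases lt_trichotomy c.re 0 with h | h | h
  · left
    have h1 : Complex.arg (c * p + d) < 0 := Complex.arg_neg_iff.2 (by rw [him]; exact mul_neg_of_neg_of_pos h hp0)
    have h2 : Complex.arg (c * q + d) < 0 := Complex.arg_neg_iff.2 (by rw [him]; exact mul_neg_of_neg_of_pos h hq0)
    rw [abs_lt]
    constructor <;> linarith
  · right
    have hc0 : c = 0 := Complex.ext h hc
    rw [hc0, zero_mul, zero_mul]
  · left
    have h1 : 0 ≤ Complex.arg (c * p + d) := Complex.arg_nonneg_iff.2 (by rw [him]; positivity)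
    have h2 : 0 ≤ Complex.arg (c * q + d) := Complex.arg_nonneg_iff.2 (by rw [him]; positivity)
    have h3 : Complex.arg (c * p + d) ≠ Real.pi := by
      intro h4
      have := (Complex.arg_eq_pi_iff.1 h4).2
      rw [him] at this
      exact (mul_pos h hp0).ne' this
    have h3' : Complex.arg (c * q + d) ≠ Real.pi := by
      intro h4
      have := (Complex.arg_eq_pi_iff.1 h4).2
      rw [him] at this
      exact (mul_pos h hq0).ne' this
    have h5 := lt_of_le_of_ne e1 h3
    have h6 := lt_of_le_of_ne e2 h3'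
    rw [abs_lt]
    constructor <;> linarith

private theorem be_mob (hCHV : StCHV) (σ : SL) (hσ : IsR σ) (p q : ℂ) (hp : p ∈ HP) (hq : q ∈ HP) :
    be (mb σ p) (mb σ q) = be p q - 2 * Complex.arg (σ 1 0 * p + σ 1 1) +
      2 * Complex.arg (σ 1 0 * q + σ 1 1) := by
  obtain ⟨hsp, hJp, -⟩ := real_mob σ hσ p hp
  obtain ⟨hsq, hJq, -⟩ := real_mob σ hσ q hq
  have hcq : conj (mb σ q) = mb σ (conj q) := by
    unfold mb
    simp only [map_div₀, map_add, map_mul, conj_real _ (hσ _ _)]
  have hJq' : σ 1 0 * conj q + σ 1 1 ≠ 0 := by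
    intro h
    apply hJq
    have h1 := congrArg conj h
    simpa only [map_add, map_mul, conj_real _ (hσ _ _), Complex.conj_conj, map_zero] using h1
  have hcJ : conj (σ 1 0 * q + σ 1 1) = σ 1 0 * conj q + σ 1 1 := by
    simp only [map_add, map_mul, conj_real _ (hσ _ _)]
  have hww : ww p q = ww (mb σ p) (mb σ q) * ((σ 1 0 * p + σ 1 1) * conj (σ 1 0 * q + σ 1 1)) := by
    unfold ww
    rw [hcq, hCHV.2.2.1 σ p (conj q) hJp hJq', hcJ, div_div, div_mul_eq_mul_div,
      mul_comm _ Complex.I, mul_div_mul_right _ _ (mul_ne_zero hJp hJq')]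
  have hcJ0 : conj (σ 1 0 * q + σ 1 1) ≠ 0 := by
    rw [hcJ]
    exact hJq'
  have h1 : (Complex.arg (ww p q) : Real.Angle) = ((Complex.arg (ww (mb σ p) (mb σ q)) +
      (Complex.arg (σ 1 0 * p + σ 1 1) - Complex.arg (σ 1 0 * q + σ 1 1)) : ℝ) : Real.Angle) := by
    conv_lhs => rw [hww]
    rw [Complex.arg_mul_coe_angle (ww_ne _ _ hsp hsq) (mul_ne_zero hJp hcJ0),
      Complex.arg_mul_coe_angle hJp hcJ0, Complex.arg_conj_coe_angle, Real.Angle.coe_add,
      Real.Angle.coe_sub, sub_eq_add_neg (Complex.arg (σ 1 0 * p + σ 1 1) : Real.Angle)]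
  rw [Real.Angle.angle_eq_iff_two_pi_dvd_sub] at h1
  obtain ⟨k, hk⟩ := h1
  have a1 := arg_lt _ (ww_pos p q hp hq)
  have a2 := arg_lt _ (ww_pos _ _ hsp hsq)
  have a3 : |Complex.arg (σ 1 0 * p + σ 1 1) - Complex.arg (σ 1 0 * q + σ 1 1)| < Real.pi := by
    rcases arg_J (σ 1 0) (σ 1 1) (hσ 1 0) (hσ 1 1) p q hp hq with h | h
    · exact h
    · rw [h, sub_self, abs_zero]
      exact Real.pi_pos
  rw [abs_lt] at a1 a2 a3
  have hk0 : k = 0 := by
    have hpi := Real.pi_pos
    have b1 : 2 * Real.pi * (k : ℝ) < 2 * Real.pi * 1 := by rw [← hk]; linarith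
    have b2 : 2 * Real.pi * (-1) < 2 * Real.pi * (k : ℝ) := by rw [← hk]; linarith
    have c1 : (k : ℝ) < 1 := lt_of_mul_lt_mul_left b1 (by positivity)
    have c2 : (-1 : ℝ) < (k : ℝ) := lt_of_mul_lt_mul_left b2 (by positivity)
    have d1 : k < 1 := by exact_mod_cast c1
    have d2 : -1 < k := by exact_mod_cast c2
    omega
  rw [hk0] at hk
  simp only [Int.cast_zero, mul_zero] at hk
  rw [be_eq, be_eq]
  linarith

private theorem arctan_est (x : ℝ) : |Real.arctan x - x| ≤ |x| ^ 3 := by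
  have h := Convex.norm_image_sub_le_of_norm_hasDerivWithin_le (𝕜 := ℝ) (f := fun t => Real.arctan t - t)
    (f' := fun t => 1 / (1 + t ^ 2) - 1) (s := Icc (-|x|) |x|) (C := |x| ^ 2) (x := 0) (y := x)
    (fun t _ => ((Real.hasDerivAt_arctan t).sub (hasDerivAt_id t)).hasDerivWithinAt) (by
      intro t ht
      have h1 : 1 / (1 + t ^ 2) - 1 = -(t ^ 2 / (1 + t ^ 2)) := by
        field_simp
        ring
      rw [h1, norm_neg, Real.norm_eq_abs, abs_of_nonneg (by positivity)]
      calc t ^ 2 / (1 + t ^ 2) ≤ t ^ 2 := div_le_self (sq_nonneg t) (by nlinarith [sq_nonneg t])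
        _ ≤ |x| ^ 2 := by
          rw [← sq_abs t]
          exact pow_le_pow_left₀ (abs_nonneg t) (abs_le.2 ht) 2) (convex_Icc _ _)
    ⟨by linarith [abs_nonneg x], abs_nonneg x⟩ ⟨neg_abs_le x, le_abs_self x⟩
  simp only [Real.arctan_zero, sub_zero, Real.norm_eq_abs] at h
  calc |Real.arctan x - x| ≤ |x| ^ 2 * |x| := h
    _ = |x| ^ 3 := by ring

private theorem div_bound (a D m s : ℝ) (hm : 0 < m) (hD : m ≤ D) (ha : |a| ≤ s) : |a / D| ≤ s / m := by
  have hD0 : 0 < D := hm.trans_le hD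
  rw [abs_div, abs_of_pos hD0]
  exact div_le_div₀ ((abs_nonneg a).trans ha) ha hm hD

private theorem asy (m v a b h k s : ℝ) (hm : 0 < m) (hv : m ≤ v) (ha : |a| ≤ s) (hb : |b| ≤ s)
    (hba : |b - a| ≤ s) (hh : |h| ≤ s) (hk : |k| ≤ s) (hhk : |h + k| ≤ s) (hh' : |h| ≤ m / 2)
    (hk' : |k| ≤ m / 2) :
    |(2 * Real.arctan (a / (2 * v + h)) + 2 * Real.arctan ((b - a) / (2 * v + h + k)) -
      2 * Real.arctan (b / (2 * v + k))) - (a * k - h * b) / (2 * v ^ 2)| ≤ 8 / m ^ 3 * s ^ 3 := by
  have hs : 0 ≤ s := (abs_nonneg a).trans ha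
  have hv0 : 0 < v := hm.trans_le hv
  rw [abs_le] at hh' hk'
  have d1 : m ≤ 2 * v + h := by linarith
  have d2 : m ≤ 2 * v + h + k := by linarith
  have d3 : m ≤ 2 * v + k := by linarith
  have p1 : 0 < 2 * v + h := hm.trans_le d1
  have p2 : 0 < 2 * v + h + k := hm.trans_le d2
  have p3 : 0 < 2 * v + k := hm.trans_le d3
  have key : ∀ x : ℝ, |x| ≤ s / m → |Real.arctan x - x| ≤ s ^ 3 / m ^ 3 := by
    intro x hx
    rw [← div_pow]
    exact (arctan_est x).trans (pow_le_pow_left₀ (abs_nonneg x) hx 3)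
  have k1 := key _ (div_bound a _ m s hm d1 ha)
  have k2 := key _ (div_bound (b - a) _ m s hm d2 hba)
  have k3 := key _ (div_bound b _ m s hm d3 hb)
  have q : ∀ x y D : ℝ, m ≤ D → |x| ≤ s → |y| ≤ s → |x * y ^ 2 / (2 * v ^ 2 * D)| ≤ s ^ 3 / (2 * m ^ 3) := by
    intro x y D hD hx hy
    have hD0 : 0 < D := hm.trans_le hD
    rw [abs_div, abs_of_pos (by positivity : 0 < 2 * v ^ 2 * D), abs_mul, abs_pow]
    apply div_le_div₀ (by positivity)
    · calc |x| * |y| ^ 2 ≤ s * s ^ 2 := mul_le_mul hx (pow_le_pow_left₀ (abs_nonneg y) hy 2) (by positivity) hs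
        _ = s ^ 3 := by ring
    · positivity
    · calc 2 * m ^ 3 = 2 * m ^ 2 * m := by ring
        _ ≤ 2 * v ^ 2 * D := by
          apply mul_le_mul _ hD hm.le (by positivity)
          have := pow_le_pow_left₀ hm.le hv 2
          linarith
  have q1 := q a h _ d1 ha hh
  have q2 := q (b - a) (h + k) _ d2 hba hhk
  have q3 := q b k _ d3 hb hk
  have id : (2 * Real.arctan (a / (2 * v + h)) + 2 * Real.arctan ((b - a) / (2 * v + h + k)) -
      2 * Real.arctan (b / (2 * v + k))) - (a * k - h * b) / (2 * v ^ 2) =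
      2 * (Real.arctan (a / (2 * v + h)) - a / (2 * v + h)) +
      2 * (Real.arctan ((b - a) / (2 * v + h + k)) - (b - a) / (2 * v + h + k)) -
      2 * (Real.arctan (b / (2 * v + k)) - b / (2 * v + k)) +
      (a * h ^ 2 / (2 * v ^ 2 * (2 * v + h)) + (b - a) * (h + k) ^ 2 / (2 * v ^ 2 * (2 * v + h + k)) -
        b * k ^ 2 / (2 * v ^ 2 * (2 * v + k))) := by
    have e : 2 * (a / (2 * v + h)) + 2 * ((b - a) / (2 * v + h + k)) - 2 * (b / (2 * v + k)) -
        (a * k - h * b) / (2 * v ^ 2) = a * h ^ 2 / (2 * v ^ 2 * (2 * v + h)) +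
        (b - a) * (h + k) ^ 2 / (2 * v ^ 2 * (2 * v + h + k)) - b * k ^ 2 / (2 * v ^ 2 * (2 * v + k)) := by
      field_simp
      ring
    linear_combination e
  rw [id]
  have r1 : s ^ 3 / (2 * m ^ 3) = (s ^ 3 / m ^ 3) / 2 := by
    field_simp
  rw [r1] at q1 q2 q3
  have r2 : 8 / m ^ 3 * s ^ 3 = 8 * (s ^ 3 / m ^ 3) := by ring
  rw [r2]
  have r3 : 0 ≤ s ^ 3 / m ^ 3 := by positivity
  rw [abs_le] at k1 k2 k3 q1 q2 q3 ⊢
  constructor <;> linarith [k1.1, k1.2, k2.1, k2.2, k3.1, k3.2, q1.1, q1.2, q2.1, q2.2, q3.1, q3.2]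

theorem hARC (hCHV : StCHV) : StARC := by
  refine ⟨fun p hp q hq => ⟨be_antisymm p q hp hq, be_bound p q hp hq⟩, ?_, ?_, real_mob, ?_, ?_, ?_⟩
  · intro p hp q hq r hr
    have h1 := be_bound p q hp hq
    have h2 := be_bound q r hq hr
    have h3 := be_bound r p hr hp
    unfold Ar
    rw [abs_le] at *
    constructor <;> linarith
  · intro p hp q hq r hr s hs
    have h1 := be_antisymm p r hp hr
    have h2 := be_antisymm q s hq hs
    unfold Ar
    linarith
  · intro σ hσ p hp q hq r hr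
    unfold Ar
    rw [be_mob hCHV σ hσ p q hp hq, be_mob hCHV σ hσ q r hq hr, be_mob hCHV σ hσ r p hr hp]
    ring
  · have hbe : Measurable (fun p : ℂ × ℂ => be p.1 p.2) := by
      unfold be
      apply Measurable.const_mul
      apply Complex.measurable_arg.comp
      apply Measurable.div_const
      exact measurable_fst.sub (Complex.continuous_conj.measurable.comp measurable_snd)
    unfold Ar
    refine Measurable.add (Measurable.add ?_ ?_) ?_
    · exact hbe.comp (measurable_fst.prodMk (measurable_fst.comp measurable_snd))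
    · exact hbe.comp measurable_snd
    · exact hbe.comp ((measurable_snd.comp measurable_snd).prodMk measurable_fst)
  · intro K hK hKH
    obtain ⟨m, hm, hmin⟩ : ∃ m > 0, ∀ p ∈ K, m ≤ p.im := by
      rcases K.eq_empty_or_nonempty with rfl | hne
      · exact ⟨1, one_pos, fun p hp => absurd hp (notMem_empty p)⟩
      · obtain ⟨p₀, hp₀, hmin⟩ := hK.exists_isMinOn hne (f := fun p : ℂ => p.im)
          Complex.continuous_im.continuousOn
        exact ⟨p₀.im, hKH hp₀, fun p hp => hmin hp⟩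
    refine ⟨8 / m ^ 3, by positivity, m / 2, by positivity, ?_⟩
    intro p hpK δ ε hδ hε
    have hp : p ∈ HP := hKH hpK
    have hv := hmin p hpK
    have hδi := (Complex.abs_im_le_norm δ).trans hδ
    have hεi := (Complex.abs_im_le_norm ε).trans hε
    have hpδ : p + δ ∈ HP := by
      show 0 < (p + δ).im
      rw [Complex.add_im]
      rw [abs_le] at hδi
      linarith
    have hpε : p + ε ∈ HP := by
      show 0 < (p + ε).im
      rw [Complex.add_im]
      rw [abs_le] at hεi
      linarith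
    have e1 : be p (p + δ) = 2 * Real.arctan (δ.re / (2 * p.im + δ.im)) := by
      rw [be_arctan p (p + δ) hp hpδ]
      have : (p.re - (p + δ).re) / (p.im + (p + δ).im) = -(δ.re / (2 * p.im + δ.im)) := by
        rw [Complex.add_re, Complex.add_im, ← neg_div]
        congr 1 <;> ring
      rw [this, Real.arctan_neg]
      ring
    have e2 : be (p + δ) (p + ε) = 2 * Real.arctan ((ε.re - δ.re) / (2 * p.im + δ.im + ε.im)) := by
      rw [be_arctan (p + δ) (p + ε) hpδ hpε]
      have : ((p + δ).re - (p + ε).re) / ((p + δ).im + (p + ε).im) =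
          -((ε.re - δ.re) / (2 * p.im + δ.im + ε.im)) := by
        rw [Complex.add_re, Complex.add_im, Complex.add_re, Complex.add_im, ← neg_div]
        congr 1 <;> ring
      rw [this, Real.arctan_neg]
      ring
    have e3 : be (p + ε) p = -(2 * Real.arctan (ε.re / (2 * p.im + ε.im))) := by
      rw [be_arctan (p + ε) p hpε hp]
      have : ((p + ε).re - p.re) / ((p + ε).im + p.im) = ε.re / (2 * p.im + ε.im) := by
        rw [Complex.add_re, Complex.add_im]
        congr 1 <;> ring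
      rw [this]
      ring
    have h0 := asy m p.im δ.re ε.re δ.im ε.im (‖δ‖ + ‖ε‖) hm hv
      ((Complex.abs_re_le_norm δ).trans (by linarith [norm_nonneg ε]))
      ((Complex.abs_re_le_norm ε).trans (by linarith [norm_nonneg δ]))
      ((abs_sub _ _).trans (by linarith [Complex.abs_re_le_norm δ, Complex.abs_re_le_norm ε]))
      ((Complex.abs_im_le_norm δ).trans (by linarith [norm_nonneg ε]))
      ((Complex.abs_im_le_norm ε).trans (by linarith [norm_nonneg δ]))
      ((abs_add_le _ _).trans (by linarith [Complex.abs_im_le_norm δ, Complex.abs_im_le_norm ε]))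
      hδi hεi
    have h1 : Ar p (p + δ) (p + ε) - dt2 δ ε / (2 * p.im ^ 2) =
        (2 * Real.arctan (δ.re / (2 * p.im + δ.im)) +
          2 * Real.arctan ((ε.re - δ.re) / (2 * p.im + δ.im + ε.im)) -
          2 * Real.arctan (ε.re / (2 * p.im + ε.im))) -
          (δ.re * ε.im - δ.im * ε.re) / (2 * p.im ^ 2) := by
      unfold Ar dt2
      rw [e1, e2, e3]
      ring
    rw [h1]
    exact h0

end Pool.Agent.Helper66.QA
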