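import Pool.Agent.Helper86.QA.St1

/-!
# Project QD, part A (MP_d112a4_gt): module HME, harmonic measure
-/

set_option autoImplicit false

open MeasureTheory Matrix Set Topology
open scoped ENNReal ComplexConjugate

namespace Pool.Agent.Helper66.QA

open Pool.Agent.Helper86.QA

private theorem radial (t : ℝ) (ht : 0 < t) :
    IntegrableOn (fun r : ℝ => r * (t / (r ^ 2 + t ^ 2)) ^ 2) (Ioi 0) ∧
      ∫ r in Ioi (0 : ℝ), r * (t / (r ^ 2 + t ^ 2)) ^ 2 = 1 / 2 := by
  have hd : ∀ r ∈ Ici (0 : ℝ), HasDerivAt (fun r : ℝ => -(t ^ 2 / (2 * (r ^ 2 + t ^ 2))))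
      (r * (t / (r ^ 2 + t ^ 2)) ^ 2) r := by
    intro r _
    have hp : 0 < r ^ 2 + t ^ 2 := by positivity
    have h1 : HasDerivAt (fun r : ℝ => 2 * (r ^ 2 + t ^ 2)) (2 * (2 * r)) r := by
      have := ((hasDerivAt_pow 2 r).add_const (t ^ 2)).const_mul 2
      simpa using this
    have h2 := ((h1.inv (by positivity)).const_mul (t ^ 2)).neg
    refine (h2.congr_of_eventuallyEq ?_).congr_deriv ?_
    · filter_upwards with s
      simp [div_eq_mul_inv]
    · field_simp
  have hpos : ∀ r ∈ Ioi (0 : ℝ), 0 ≤ r * (t / (r ^ 2 + t ^ 2)) ^ 2 := by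
    intro r hr
    have : (0 : ℝ) < r := hr
    positivity
  have hlim : Filter.Tendsto (fun r : ℝ => -(t ^ 2 / (2 * (r ^ 2 + t ^ 2)))) Filter.atTop (𝓝 0) := by
    rw [← neg_zero]
    apply Filter.Tendsto.neg
    apply Filter.Tendsto.div_atTop tendsto_const_nhds
    apply Filter.Tendsto.const_mul_atTop (by norm_num : (0 : ℝ) < 2)
    apply Filter.tendsto_atTop_add_const_right
    exact Filter.tendsto_pow_atTop (by norm_num)
  refine ⟨integrableOn_Ioi_deriv_of_nonneg' hd hpos hlim, ?_⟩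
  rw [integral_Ioi_of_hasDerivAt_of_nonneg' hd hpos hlim]
  field_simp
  simp

private theorem total (x : Pt) (hx : x ∈ up) :
    Integrable (fun ξ : ℂ => pp x ξ ^ 2) ∧ ∫ ξ : ℂ, pp x ξ ^ 2 = Real.pi := by
  have ht : 0 < x.2 := hx
  have h1 : (fun ξ : ℂ => pp x ξ ^ 2) = fun ξ => (fun w : ℂ => (fun r : ℝ => (x.2 / (r ^ 2 + x.2 ^ 2)) ^ 2) ‖w‖)
      (ξ - x.1) := by
    funext ξ
    unfold pp
    rw [norm_sub_rev]
  obtain ⟨hi, hv⟩ := radial x.2 ht
  have h2 : Integrable (fun w : ℂ => (fun r : ℝ => (x.2 / (r ^ 2 + x.2 ^ 2)) ^ 2) ‖w‖) := by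
    refine (integrable_fun_norm_addHaar (volume : Measure ℂ)
      (f := fun r : ℝ => (x.2 / (r ^ 2 + x.2 ^ 2)) ^ 2)).2 ?_
    rw [Complex.finrank_real_complex]
    simpa using hi
  rw [h1]
  refine ⟨h2.comp_sub_right x.1, ?_⟩
  rw [integral_sub_right_eq_self (fun w : ℂ => (fun r : ℝ => (x.2 / (r ^ 2 + x.2 ^ 2)) ^ 2) ‖w‖) x.1]
  have h4 := integral_fun_norm_addHaar (volume : Measure ℂ) (fun r : ℝ => (x.2 / (r ^ 2 + x.2 ^ 2)) ^ 2)
  rw [Complex.finrank_real_complex] at h4
  refine h4.trans ?_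
  have h3 : (∫ y in Ioi (0 : ℝ), y ^ (2 - 1) • (x.2 / (y ^ 2 + x.2 ^ 2)) ^ 2) = 1 / 2 := by
    rw [← hv]
    simp
  rw [h3, Measure.real, Complex.volume_ball]
  simp
  ring

private theorem hv_nonneg (B : Set ℂ) (x : Pt) : 0 ≤ hv B x := by
  unfold hv
  have := Real.pi_pos
  have h : 0 ≤ ∫ ξ in B, pp x ξ ^ 2 := integral_nonneg fun ξ => sq_nonneg _
  positivity

private theorem pp_meas (x : Pt) : Measurable (fun ξ : ℂ => pp x ξ) := by
  unfold pp
  fun_prop

private theorem pp_meas2 : Measurable (fun p : Pt × ℂ => pp p.1 p.2) := by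
  unfold pp
  fun_prop

private theorem hv_meas (B : Set ℂ) : Measurable (hv B) := by
  unfold hv
  apply Measurable.const_mul
  have h : StronglyMeasurable (fun p : Pt × ℂ => pp p.1 p.2 ^ 2) := (pp_meas2.pow_const 2).stronglyMeasurable
  exact (h.integral_prod_right' (ν := volume.restrict B)).measurable

private theorem kk_nonneg (x y : Pt) : 0 ≤ kk x y := by
  unfold kk
  split_ifs <;> norm_num

private theorem ofReal_hv (B : Set ℂ) (x : Pt) (hx : x ∈ up) :
    ENNReal.ofReal (hv B x) = ENNReal.ofReal (1 / Real.pi) * ∫⁻ ξ in B, ENNReal.ofReal (pp x ξ ^ 2) := by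
  unfold hv
  rw [ENNReal.ofReal_mul (by positivity), ofReal_integral_eq_lintegral_ofReal (total x hx).1.integrableOn
    (Filter.Eventually.of_forall fun ξ => sq_nonneg _)]

private theorem null_den (g : SL) : volume {ξ : ℂ | g 1 0 * ξ + g 1 1 = 0} = 0 := by
  have hdet : g 0 0 * g 1 1 - g 0 1 * g 1 0 = 1 := by
    have h := g.det_coe
    rw [Matrix.det_fin_two] at h
    exact h
  have hs : {ξ : ℂ | g 1 0 * ξ + g 1 1 = 0} ⊆ {-(g 1 1 / g 1 0)} := by
    intro ξ hξ
    have h1 : g 1 0 * ξ + g 1 1 = 0 := hξ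
    have hc : g 1 0 ≠ 0 := by
      intro hc
      rw [hc, zero_mul, zero_add] at h1
      rw [hc, h1] at hdet
      simp at hdet
    show ξ = -(g 1 1 / g 1 0)
    rw [← neg_div, eq_div_iff hc]
    linear_combination h1
  exact measure_mono_null hs (by simp)

private theorem meas_left (k : Pt → Pt → ℝ) (hk : Measurable (fun p : Pt × Pt => k p.1 p.2)) (x : Pt) :
    Measurable (fun y : Pt => k x y) := by
  have h : Measurable (fun y : Pt => (x, y)) := measurable_const.prodMk measurable_id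
  exact hk.comp h

theorem hHME (hACT : StACT) (hCHI : StCHI) (hVOL : StVOL) (hKRN : StKRN) (hPOI : StPOI)
    (hCHV : StCHV) : StHME := by
  have hpi := Real.pi_pos
  refine ⟨?_, ?_, ?_, ?_, ?_, ?_, ?_, ?_⟩
  · intro B x hB hx
    refine ⟨(total x hx).1.integrableOn, hv_nonneg B x, ?_⟩
    unfold hv
    have h : ∫ ξ in B, pp x ξ ^ 2 ≤ Real.pi := by
      rw [← (total x hx).2]
      exact setIntegral_le_integral (total x hx).1 (Filter.Eventually.of_forall fun ξ => sq_nonneg _)
    rw [one_div, inv_mul_le_iff₀ hpi, mul_one]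
    exact h
  · intro A B x hA hB hdis hnul hx
    unfold hv
    rw [← mul_add, ← setIntegral_union hdis hB (total x hx).1.integrableOn (total x hx).1.integrableOn]
    have h : ∫ ξ in A ∪ B, pp x ξ ^ 2 = ∫ ξ : ℂ, pp x ξ ^ 2 := by
      rw [← setIntegral_univ (μ := volume)]
      apply setIntegral_congr_set
      rw [ae_eq_univ]
      exact hnul
    rw [h, (total x hx).2]
    field_simp
  · intro B hB
    refine ⟨hv_meas B, ?_⟩
    intro x₀ hx₀
    apply ContinuousAt.continuousWithinAt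
    unfold hv
    apply ContinuousAt.const_mul
    have ht₀ : 0 < x₀.2 := hx₀
    have hnear : ∀ᶠ y in 𝓝 x₀, y ∈ up ∧ ch x₀ y ≤ 2 := by
      have hu : ∀ᶠ y in 𝓝 x₀, y ∈ up := up_open.mem_nhds hx₀
      have hc : ContinuousAt (fun y : Pt => ch x₀ y) x₀ := by
        unfold ch
        apply ContinuousAt.div
        · fun_prop
        · fun_prop
        · positivity
      have h1 : ch x₀ x₀ < 2 := by
        rw [(hCHI.1 x₀ hx₀ x₀ hx₀).2.2.1]
        norm_num
      filter_upwards [hu, hc.eventually (gt_mem_nhds h1)] with y h2 h3 using ⟨h2, le_of_lt h3⟩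
    apply continuousAt_of_dominated (bound := fun ξ => ll ^ 2 * pp x₀ ξ ^ 2)
    · exact Filter.Eventually.of_forall fun y => ((pp_meas y).pow_const 2).aestronglyMeasurable
    · filter_upwards [hnear] with y hy
      apply Filter.Eventually.of_forall
      intro ξ
      rw [Real.norm_eq_abs, abs_of_nonneg (sq_nonneg _), ← mul_pow]
      exact pow_le_pow_left₀ (hPOI.2.1 ξ y hy.1).2.le (hPOI.2.2.1 x₀ hx₀ y hy.1 ξ hy.2) 2
    · exact ((total x₀ hx₀).1.const_mul _).integrableOn
    · apply Filter.Eventually.of_forall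
      intro ξ
      apply ContinuousAt.pow
      unfold pp
      apply ContinuousAt.div
      · fun_prop
      · fun_prop
      · positivity
  · intro B hB x hx y hy hxy
    unfold hv
    have h : ∫ ξ in B, pp y ξ ^ 2 ≤ ll ^ 2 * ∫ ξ in B, pp x ξ ^ 2 := by
      rw [← integral_const_mul]
      apply integral_mono (total y hy).1.integrableOn ((total x hx).1.const_mul _).integrableOn
      intro ξ
      show pp y ξ ^ 2 ≤ ll ^ 2 * pp x ξ ^ 2
      rw [← mul_pow]
      exact pow_le_pow_left₀ (hPOI.2.1 ξ y hy).2.le (hPOI.2.2.1 x hx y hy ξ hxy) 2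
    calc 1 / Real.pi * ∫ ξ in B, pp y ξ ^ 2 ≤ 1 / Real.pi * (ll ^ 2 * ∫ ξ in B, pp x ξ ^ 2) :=
          mul_le_mul_of_nonneg_left h (by positivity)
      _ = ll ^ 2 * (1 / Real.pi * ∫ ξ in B, pp x ξ ^ 2) := by ring
  · intro B hB x hx
    have hkk : Measurable (fun p : Pt × Pt => kk p.1 p.2) := hCHI.2.2.2.2.2
    have hkx : Measurable (fun y : Pt => kk x y) := meas_left _ hkk x
    have hm : Measurable (fun y => kk x y * hv B y) := hkx.mul (hv_meas B)
    have hnn : ∀ y, 0 ≤ kk x y * hv B y := fun y => mul_nonneg (kk_nonneg x y) (hv_nonneg B y)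
    have hVV : 0 ≤ VV := hKRN.1.le
    have hl : ∫⁻ y, ENNReal.ofReal (kk x y * hv B y) ∂vol = ENNReal.ofReal (VV * hv B x) := by
      have h1 : ∫⁻ y, ENNReal.ofReal (kk x y * hv B y) ∂vol = ∫⁻ y, (ENNReal.ofReal (1 / Real.pi) *
          ∫⁻ ξ in B, ENNReal.ofReal (kk x y * pp y ξ ^ 2)) ∂vol := by
        apply lintegral_congr_ae
        filter_upwards [ae_up] with y hy
        rw [ENNReal.ofReal_mul (kk_nonneg x y), ofReal_hv B y hy]
        have h2 : ∀ ξ : ℂ, ENNReal.ofReal (kk x y * pp y ξ ^ 2) =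
            ENNReal.ofReal (kk x y) * ENNReal.ofReal (pp y ξ ^ 2) := fun ξ =>
          ENNReal.ofReal_mul (kk_nonneg x y)
        simp only [h2]
        rw [lintegral_const_mul' _ _ ENNReal.ofReal_ne_top]
        ring
      have hm2 : Measurable (fun p : Pt × ℂ => ENNReal.ofReal (kk x p.1 * pp p.1 p.2 ^ 2)) :=
        ((hkx.comp measurable_fst).mul (pp_meas2.pow_const 2)).ennreal_ofReal
      rw [h1, lintegral_const_mul' _ _ ENNReal.ofReal_ne_top, lintegral_lintegral_swap hm2.aemeasurable]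
      have h3 : ∀ ξ : ℂ, ∫⁻ y, ENNReal.ofReal (kk x y * pp y ξ ^ 2) ∂vol =
          ENNReal.ofReal VV * ENNReal.ofReal (pp x ξ ^ 2) := by
        intro ξ
        rw [hPOI.2.2.2.1 ξ x hx, ENNReal.ofReal_mul hVV]
      simp only [h3]
      rw [lintegral_const_mul' _ _ ENNReal.ofReal_ne_top, ENNReal.ofReal_mul hVV, ofReal_hv B x hx]
      ring
    have hint : Integrable (fun y => kk x y * hv B y) vol := by
      refine ⟨hm.aestronglyMeasurable, ?_⟩
      rw [hasFiniteIntegral_iff_ofReal (Filter.Eventually.of_forall hnn), hl]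
      exact ENNReal.ofReal_lt_top
    refine ⟨hint, ?_⟩
    rw [integral_eq_lintegral_of_nonneg_ae (Filter.Eventually.of_forall hnn) hm.aestronglyMeasurable, hl,
      ENNReal.toReal_ofReal (mul_nonneg hVV (hv_nonneg B x))]
  · intro B x hB hpos hx
    unfold hv
    have h : 0 < ∫ ξ in B, pp x ξ ^ 2 := by
      rw [integral_pos_iff_support_of_nonneg (fun ξ => sq_nonneg _) (total x hx).1.integrableOn]
      have hs : Function.support (fun ξ : ℂ => pp x ξ ^ 2) = univ := by
        ext ξ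
        simp only [Function.mem_support, mem_univ, iff_true]
        exact pow_ne_zero 2 (hPOI.2.1 ξ x hx).2.ne'
      rw [hs, Measure.restrict_apply_univ]
      exact hpos
    positivity
  · intro B x hB hx hfin
    have h1 : ∫⁻ ξ in B, ENNReal.ofReal (pp x ξ ^ 2) ≤ ENNReal.ofReal (x.2 ^ 2) * aw B x.1 := by
      unfold aw
      rw [← lintegral_const_mul' _ _ ENNReal.ofReal_ne_top]
      apply lintegral_mono_ae
      have hne : ∀ᵐ ξ ∂(volume.restrict B), ξ ≠ x.1 := by
        apply ae_restrict_of_ae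
        exact Measure.ae_ne volume x.1
      filter_upwards [hne] with ξ hξ
      rw [← ENNReal.ofReal_mul (sq_nonneg _)]
      apply ENNReal.ofReal_le_ofReal
      have hn : 0 < ‖x.1 - ξ‖ := norm_pos_iff.2 (sub_ne_zero.2 hξ.symm)
      have ht : 0 < x.2 := hx
      unfold pp
      rw [div_pow, mul_one_div]
      apply div_le_div_of_nonneg_left (by positivity) (by positivity)
      nlinarith [sq_nonneg x.2, sq_nonneg (‖x.1 - ξ‖)]
    have h2 : ENNReal.ofReal (hv B x) ≤ ENNReal.ofReal (x.2 ^ 2 * ((aw B x.1).toReal / Real.pi)) := by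
      rw [ofReal_hv B x hx]
      calc ENNReal.ofReal (1 / Real.pi) * ∫⁻ ξ in B, ENNReal.ofReal (pp x ξ ^ 2) ≤
            ENNReal.ofReal (1 / Real.pi) * (ENNReal.ofReal (x.2 ^ 2) * aw B x.1) := by gcongr
        _ = ENNReal.ofReal (x.2 ^ 2 * ((aw B x.1).toReal / Real.pi)) := by
          conv_lhs => rw [← ENNReal.ofReal_toReal hfin]
          rw [← ENNReal.ofReal_mul (sq_nonneg _), ← ENNReal.ofReal_mul (by positivity)]
          congr 1
          ring
    exact (ENNReal.ofReal_le_ofReal_iff (by positivity)).1 h2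
  · intro B B' g x hB hB' hx hBB
    have hgx : ga g x ∈ up := (hACT.1 g x hx).2.1
    have h1 : ∫⁻ η in B', ENNReal.ofReal (pp (ga g x) η ^ 2) = ∫⁻ ξ in B, ENNReal.ofReal (pp x ξ ^ 2) := by
      rw [← lintegral_indicator hB', ← lintegral_indicator hB,
        ← hCHV.1 g (B'.indicator fun η => ENNReal.ofReal (pp (ga g x) η ^ 2))
          ((((pp_meas (ga g x)).pow_const 2).ennreal_ofReal).indicator hB')]
      apply lintegral_congr_ae
      have hne : ∀ᵐ ξ : ℂ, g 1 0 * ξ + g 1 1 ≠ 0 := by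
        rw [ae_iff]
        simpa using null_den g
      filter_upwards [hne] with ξ hξ
      by_cases hmem : ξ ∈ B
      · rw [indicator_of_mem hmem, indicator_of_mem ((hBB ξ hξ).1 hmem), hPOI.1 g x ξ hx hξ,
          ← ENNReal.ofReal_mul (sq_nonneg _)]
        congr 1
        have hn : ‖g 1 0 * ξ + g 1 1‖ ≠ 0 := norm_ne_zero_iff.2 hξ
        field_simp
      · rw [indicator_of_notMem hmem, indicator_of_notMem (fun h => hmem ((hBB ξ hξ).2 h)), zero_mul]
    have h2 : ENNReal.ofReal (hv B' (ga g x)) = ENNReal.ofReal (hv B x) := by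
      rw [ofReal_hv B' _ hgx, ofReal_hv B x hx, h1]
    exact (ENNReal.ofReal_eq_ofReal_iff (hv_nonneg _ _) (hv_nonneg _ _)).1 h2

end Pool.Agent.Helper66.QA
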