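import Pool.Agent.Helper86.QA.St3

/-!
# Project QD, part A (MP_d112a4_gt): module PSI, weights near `A`
-/

set_option autoImplicit false

open MeasureTheory Matrix Set Topology Filter
open scoped ENNReal ComplexConjugate

namespace Pool.Agent.Helper66.QA

open Pool.Agent.Helper86.QA

section

variable {Γ : Type} [Group Γ] {α : Type} [MeasurableSpace α]

/-- sum over the orbit -/
private noncomputable def NN (a : Γ → α → α) (c : α → ℝ) (x : α) : ℝ≥0∞ :=
  ∑' γ : Γ, ENNReal.ofReal (c (a γ x))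

/-- the normalised weight -/
private noncomputable def pw (a : Γ → α → α) (c : α → ℝ) (x : α) : ℝ :=
  (ENNReal.ofReal (c x) / NN a c x).toReal

private theorem weights [Countable Γ] (a : Γ → α → α) (S : Set α)
    (hone : ∀ x ∈ S, a 1 x = x) (hms : ∀ (γ : Γ), ∀ x ∈ S, a γ x ∈ S)
    (hmul : ∀ (γ δ : Γ), ∀ x ∈ S, a (γ * δ) x = a γ (a δ x))
    (hme : ∀ γ : Γ, Measurable (a γ)) (c : α → ℝ) (hc : Measurable c)
    (hS : ∀ x, x ∉ S → c x = 0) (hfin : ∀ x ∈ S, {γ : Γ | c (a γ x) ≠ 0}.Finite) :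
    Measurable (pw a c) ∧ (∀ x, 0 ≤ pw a c x ∧ pw a c x ≤ 1) ∧ (∀ x, pw a c x ≠ 0 → c x ≠ 0) ∧
      (∀ x ∈ S, NN a c x ≠ ∞) ∧
      (∀ x ∈ S, (∃ γ : Γ, c (a γ x) = 1) → 1 ≤ NN a c x) ∧
      (∀ x ∈ S, (∃ γ : Γ, c (a γ x) = 1) → ∑' γ : Γ, ENNReal.ofReal (pw a c (a γ x)) = 1) := by
  have hN : ∀ x ∈ S, NN a c x ≠ ∞ := by
    intro x hx
    unfold NN
    rw [tsum_eq_sum (s := (hfin x hx).toFinset) (fun γ hγ => by
      have h : c (a γ x) = 0 := by
        by_contra h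
        exact hγ ((hfin x hx).mem_toFinset.2 h)
      rw [h, ENNReal.ofReal_zero])]
    exact (ENNReal.sum_lt_top.2 fun γ _ => ENNReal.ofReal_lt_top).ne
  have hle : ∀ x, ENNReal.ofReal (c x) / NN a c x ≤ 1 := by
    intro x
    by_cases hx : x ∈ S
    · apply ENNReal.div_le_of_le_mul
      rw [one_mul]
      unfold NN
      calc ENNReal.ofReal (c x) = ENNReal.ofReal (c (a 1 x)) := by rw [hone x hx]
        _ ≤ ∑' γ : Γ, ENNReal.ofReal (c (a γ x)) := ENNReal.le_tsum (1 : Γ)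
    · rw [hS x hx, ENNReal.ofReal_zero, ENNReal.zero_div]
      exact zero_le_one
  have hofp : ∀ x, ENNReal.ofReal (pw a c x) = ENNReal.ofReal (c x) / NN a c x := fun x =>
    ENNReal.ofReal_toReal ((hle x).trans_lt ENNReal.one_lt_top).ne
  have hone' : ∀ x ∈ S, (∃ γ : Γ, c (a γ x) = 1) → 1 ≤ NN a c x := by
    rintro x hx ⟨γ, hγ⟩
    calc (1 : ℝ≥0∞) = ENNReal.ofReal (c (a γ x)) := by rw [hγ, ENNReal.ofReal_one]
      _ ≤ NN a c x := ENNReal.le_tsum γ
  have hNinv : ∀ (δ : Γ), ∀ x ∈ S, NN a c (a δ x) = NN a c x := by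
    intro δ x hx
    unfold NN
    rw [← (Equiv.mulRight δ).tsum_eq (fun γ : Γ => ENNReal.ofReal (c (a γ x)))]
    apply tsum_congr
    intro γ
    rw [Equiv.coe_mulRight, hmul γ δ x hx]
  refine ⟨?_, ?_, ?_, hN, hone', ?_⟩
  · unfold pw
    apply Measurable.ennreal_toReal
    apply Measurable.div hc.ennreal_ofReal
    unfold NN
    exact Measurable.ennreal_tsum fun γ => (hc.comp (hme γ)).ennreal_ofReal
  · intro x
    refine ⟨ENNReal.toReal_nonneg, ?_⟩
    unfold pw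
    calc (ENNReal.ofReal (c x) / NN a c x).toReal ≤ (1 : ℝ≥0∞).toReal :=
          ENNReal.toReal_mono ENNReal.one_ne_top (hle x)
      _ = 1 := ENNReal.toReal_one
  · intro x hx h
    apply hx
    unfold pw
    rw [h, ENNReal.ofReal_zero, ENNReal.zero_div, ENNReal.toReal_zero]
  · intro x hx hex
    have h1 : ∀ γ : Γ, ENNReal.ofReal (pw a c (a γ x)) =
        ENNReal.ofReal (c (a γ x)) * (NN a c x)⁻¹ := by
      intro γ
      rw [hofp, hNinv γ x hx, div_eq_mul_inv]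
    simp only [h1]
    rw [ENNReal.tsum_mul_right]
    show NN a c x * (NN a c x)⁻¹ = 1
    apply ENNReal.mul_inv_cancel
    · have := hone' x hx hex
      intro h0
      rw [h0] at this
      simp at this
    · exact hN x hx

end

/-- the cut off function on the upper half space -/
private noncomputable def cu (χ : ℂ → ℝ) (T : ℝ) (x : Pt) : ℝ := by
  classical exact if 0 < x.2 ∧ x.2 < T then χ x.1 else 0

private theorem cu_eq (χ : ℂ → ℝ) (T : ℝ) (x : Pt) (h1 : 0 < x.2) (h2 : x.2 < T) : cu χ T x = χ x.1 :=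
  if_pos ⟨h1, h2⟩

private theorem cu_ne (χ : ℂ → ℝ) (T : ℝ) (x : Pt) (h : cu χ T x ≠ 0) : χ x.1 ≠ 0 ∧ 0 < x.2 ∧ x.2 < T := by
  by_cases h1 : 0 < x.2 ∧ x.2 < T
  · rw [cu_eq χ T x h1.1 h1.2] at h
    exact ⟨h, h1⟩
  · exact absurd (if_neg h1) h

private theorem cu_meas (χ : ℂ → ℝ) (hχ : Measurable χ) (T : ℝ) : Measurable (cu χ T) := by
  classical
  unfold cu
  apply Measurable.ite
  · exact (measurableSet_lt measurable_const measurable_snd).inter (measurableSet_lt measurable_snd measurable_const)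
  · exact hχ.comp measurable_fst
  · exact measurable_const

private theorem ga_lim (g : SL) (z : ℂ) (h : g 1 0 * z + g 1 1 ≠ 0) :
    Tendsto (ga g) (𝓝 ((z, 0) : Pt)) (𝓝 (mb g z, 0)) := by
  have hn : ‖g 1 0 * z + g 1 1‖ ≠ 0 := norm_ne_zero_iff.2 h
  have hd : den g ((z, 0) : Pt) = ‖g 1 0 * z + g 1 1‖ ^ 2 := by
    unfold den
    simp
  have hd0 : den g ((z, 0) : Pt) ≠ 0 := by
    rw [hd]
    exact pow_ne_zero 2 hn
  have hdc : ContinuousAt (fun x : Pt => den g x) ((z, 0) : Pt) := by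
    unfold den
    fun_prop
  have hval : ga g ((z, 0) : Pt) = (mb g z, 0) := by
    unfold ga
    rw [hd]
    apply Prod.ext
    · show ((g 0 0 * z + g 0 1) * conj (g 1 0 * z + g 1 1) + g 0 0 * conj (g 1 0) * ((0 : ℝ) : ℂ) ^ 2) /
        ((‖g 1 0 * z + g 1 1‖ ^ 2 : ℝ) : ℂ) = mb g z
      have hcj : ((‖g 1 0 * z + g 1 1‖ ^ 2 : ℝ) : ℂ) = (g 1 0 * z + g 1 1) * conj (g 1 0 * z + g 1 1) := by
        rw [Complex.mul_conj, Complex.normSq_eq_norm_sq]
      have hcj0 : conj (g 1 0 * z + g 1 1) ≠ 0 := (map_ne_zero _).2 h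
      rw [hcj, Complex.ofReal_zero, zero_pow two_ne_zero, mul_zero, add_zero, mul_div_mul_right _ _ hcj0]
      rfl
    · show (0 : ℝ) / _ = 0
      rw [zero_div]
  rw [← hval]
  have hc : ContinuousAt (ga g) ((z, 0) : Pt) := by
    unfold ga
    apply ContinuousAt.prodMk
    · apply ContinuousAt.div
      · have hconj : Continuous (fun x : Pt => conj (g 1 0 * x.1 + g 1 1)) := by
          apply Complex.continuous_conj.comp
          fun_prop
        apply Continuous.continuousAt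
        apply Continuous.add
        · apply Continuous.mul _ hconj
          fun_prop
        · apply Continuous.mul continuous_const
          exact (Complex.continuous_ofReal.comp continuous_snd).pow 2
      · exact Complex.continuous_ofReal.continuousAt.comp hdc
      · exact_mod_cast hd0
    · exact ContinuousAt.div continuous_snd.continuousAt hdc hd0
  exact hc

private theorem neBot_up (z : ℂ) : (𝓝[up] ((z, 0) : Pt)).NeBot := by
  rw [← mem_closure_iff_nhdsWithin_neBot]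
  apply mem_closure_of_tendsto (f := fun t : ℝ => ((z, t) : Pt)) (b := 𝓝[>] (0 : ℝ))
  · apply Tendsto.mono_left _ nhdsWithin_le_nhds
    have : Continuous (fun t : ℝ => ((z, t) : Pt)) := by fun_prop
    exact this.tendsto 0
  · filter_upwards [self_mem_nhdsWithin] with t ht
    exact ht

private theorem cu_lim (hACT : StACT) (χ : ℂ → ℝ) (hχ : Continuous χ) (T : ℝ) (hT : 0 < T) (g : SL) (z : ℂ)
    (h : g 1 0 * z + g 1 1 ≠ 0) :
    Tendsto (fun x : Pt => cu χ T (ga g x)) (𝓝[up] ((z, 0) : Pt)) (𝓝 (χ (mb g z))) := by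
  have h1 : Tendsto (ga g) (𝓝[up] ((z, 0) : Pt)) (𝓝 (mb g z, 0)) :=
    (ga_lim g z h).mono_left nhdsWithin_le_nhds
  have h2 : Tendsto (fun x : Pt => χ (ga g x).1) (𝓝[up] ((z, 0) : Pt)) (𝓝 (χ (mb g z))) :=
    (hχ.tendsto _).comp ((continuous_fst.tendsto _).comp h1)
  have h3 : Tendsto (fun x : Pt => (ga g x).2) (𝓝[up] ((z, 0) : Pt)) (𝓝 0) :=
    (continuous_snd.tendsto _).comp h1
  apply h2.congr'
  filter_upwards [self_mem_nhdsWithin, h3.eventually (gt_mem_nhds hT)] with x hx hxT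
  rw [cu_eq χ T _ (hACT.1 g x hx).2.1 hxT]

theorem hPSI (hACT : StACT) (hCHV : StCHV) (hACU : StACU) (hPD2 : StPD2) (hCPA : StCPA) : StPSI := by
  intro Γ _ ρ A B hKD T hT
  obtain ⟨hcount, hau, hab, -, -, -, -⟩ := hACU Γ ρ A B hKD
  obtain ⟨KA, hKA, hKAA, hcov, -, hsmall⟩ := hCPA Γ ρ A B hKD
  obtain ⟨χ, hχ1, hχc, hχA, hχI⟩ := exists_continuousMap_one_of_isCompact_subset_isOpen hKA hKD.opA hKAA
  obtain ⟨δ₀, hδ₀, hδ⟩ := hsmall T hT
  have hAB : A ⊆ A ∪ B := subset_union_left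
  have hsupp : ∀ z : ℂ, χ z ≠ 0 → z ∈ tsupport χ := fun z hz => subset_tsupport _ hz
  have hχm : Measurable (χ : ℂ → ℝ) := χ.continuous.measurable
  have hup0 : ∀ x : Pt, x ∉ up → cu χ T x = 0 := by
    intro x hx
    by_contra h
    exact hx (cu_ne χ T x h).2.1
  have hA0 : ∀ z : ℂ, z ∉ A → χ z = 0 := by
    intro z hz
    by_contra h
    exact hz (hχA (hsupp z h))
  have hfinU : ∀ x ∈ up, {γ : Γ | cu χ T (au ρ γ x) ≠ 0}.Finite := by
    intro x hx
    have hp := hPD2 Γ ρ A B hKD ∅ (tsupport χ) T T isCompact_empty (empty_subset _) hχc (hχA.trans hAB)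
    refine ((hp.2.1 {x} isCompact_singleton (singleton_subset_iff.2 hx)).1).subset ?_
    intro γ hγ
    have h := cu_ne χ T _ hγ
    exact ⟨x, rfl, hsupp _ h.1, h.2.2.le⟩
  have hfinA : ∀ z ∈ A, {γ : Γ | χ (ab ρ γ z) ≠ 0}.Finite := by
    intro z hz
    have hp := hPD2 Γ ρ A B hKD {z} (tsupport χ) T T isCompact_singleton (singleton_subset_iff.2 (hAB hz)) hχc
      (hχA.trans hAB)
    refine hp.2.2.subset ?_
    intro γ hγ
    exact ⟨z, rfl, hsupp _ hγ⟩
  have W1 := weights (au ρ) up hau.one hau.ms hau.mul hau.me (cu χ T) (cu_meas χ hχm T) hup0 hfinU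
  have W2 := weights (ab ρ) A hab.one hab.ms hab.mul hab.me χ hχm hA0 hfinA
  obtain ⟨m1, b1, n1, f1, o1, s1⟩ := W1
  obtain ⟨m2, b2, n2, f2, o2, s2⟩ := W2
  have hcovA : ∀ z ∈ A, ∃ γ : Γ, χ (ab ρ γ z) = 1 := by
    intro z hz
    obtain ⟨γ, hγ⟩ := hcov z hz
    exact ⟨γ, hχ1 hγ⟩
  refine ⟨tsupport χ, pw (au ρ) (cu χ T), pw (ab ρ) χ, δ₀, hχc, hχA, hδ₀, m1, m2, b1, b2, ?_, ?_, ?_, ?_, ?_⟩
  · intro x hx
    have h := cu_ne χ T x (n1 x hx)
    exact ⟨hsupp _ h.1, h.2⟩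
  · intro z hz
    exact hsupp _ (n2 z hz)
  · intro x hx hxδ
    apply s1 x hx
    obtain ⟨γ, hγ1, hγ2⟩ := hδ x hx hxδ
    refine ⟨γ, ?_⟩
    rw [cu_eq χ T _ (hau.ms γ x hx) hγ2]
    exact hχ1 hγ1
  · intro z hz
    exact s2 z hz (hcovA z hz)
  · intro z hz
    have := neBot_up z
    have hlim : ∀ γ : Γ, Tendsto (fun x : Pt => cu χ T (au ρ γ x)) (𝓝[up] ((z, 0) : Pt))
        (𝓝 (χ (ab ρ γ z))) := fun γ =>
      cu_lim hACT χ χ.continuous T hT (ρ γ) z (hKD.mpA γ z hz).1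
    obtain ⟨r, hr, hrA⟩ : ∃ r > 0, Metric.closedBall z r ⊆ A := by
      obtain ⟨r, hr, h⟩ := Metric.nhds_basis_closedBall.mem_iff.1 (hKD.opA.mem_nhds hz)
      exact ⟨r, hr, h⟩
    have hp := (hPD2 Γ ρ A B hKD (Metric.closedBall z r) (tsupport χ) 1 T (isCompact_closedBall z r)
      (hrA.trans hAB) hχc (hχA.trans hAB)).1
    have hev : ∀ᶠ x : Pt in 𝓝[up] ((z, 0) : Pt), x ∈ up ∧ x.1 ∈ Metric.closedBall z r ∧ x.2 ≤ 1 := by
      have h1 : ∀ᶠ x : Pt in 𝓝 ((z, 0) : Pt), x.1 ∈ Metric.closedBall z r :=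
        (continuous_fst.tendsto ((z, 0) : Pt)).eventually (Metric.closedBall_mem_nhds z hr)
      have h2 : ∀ᶠ x : Pt in 𝓝 ((z, 0) : Pt), x.2 < 1 :=
        (continuous_snd.tendsto ((z, 0) : Pt)).eventually (gt_mem_nhds (by norm_num))
      filter_upwards [self_mem_nhdsWithin, nhdsWithin_le_nhds h1, nhdsWithin_le_nhds h2] with x a b c
      exact ⟨a, b, c.le⟩
    have hout : ∀ x : Pt, (x ∈ up ∧ x.1 ∈ Metric.closedBall z r ∧ x.2 ≤ 1) → ∀ γ : Γ, γ ∉ hp.toFinset →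
        cu χ T (au ρ γ x) = 0 := by
      intro x hx γ hγ
      by_contra h
      apply hγ
      rw [hp.mem_toFinset]
      have h1 := cu_ne χ T _ h
      exact ⟨x, hx.1, hx.2.1, hx.2.2, hsupp _ h1.1, h1.2.2.le⟩
    have houtA : ∀ γ : Γ, γ ∉ hp.toFinset → χ (ab ρ γ z) = 0 := by
      intro γ hγ
      refine tendsto_nhds_unique (hlim γ) ?_
      apply tendsto_const_nhds.congr'
      filter_upwards [hev] with x hx
      exact (hout x hx γ hγ).symm
    have hNlim : Tendsto (NN (au ρ) (cu χ T)) (𝓝[up] ((z, 0) : Pt)) (𝓝 (NN (ab ρ) χ z)) := by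
      have h1 : NN (ab ρ) χ z = ∑ γ ∈ hp.toFinset, ENNReal.ofReal (χ (ab ρ γ z)) :=
        tsum_eq_sum fun γ hγ => by rw [houtA γ hγ, ENNReal.ofReal_zero]
      have h2 : Tendsto (fun x : Pt => ∑ γ ∈ hp.toFinset, ENNReal.ofReal (cu χ T (au ρ γ x)))
          (𝓝[up] ((z, 0) : Pt)) (𝓝 (∑ γ ∈ hp.toFinset, ENNReal.ofReal (χ (ab ρ γ z)))) :=
        tendsto_finsetSum _ fun γ _ => ENNReal.tendsto_ofReal (hlim γ)
      rw [h1]
      apply h2.congr'
      filter_upwards [hev] with x hx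
      exact (tsum_eq_sum fun γ hγ => by rw [hout x hx γ hγ, ENNReal.ofReal_zero]).symm
    have hclim : Tendsto (cu χ T) (𝓝[up] ((z, 0) : Pt)) (𝓝 (χ z)) := by
      have h1 := hlim 1
      rw [hab.one z hz] at h1
      apply h1.congr'
      filter_upwards [self_mem_nhdsWithin] with x hx
      rw [hau.one x hx]
    have hNA1 : 1 ≤ NN (ab ρ) χ z := o2 z hz (hcovA z hz)
    have hNA0 : NN (ab ρ) χ z ≠ 0 := by
      intro h0
      rw [h0] at hNA1
      simp at hNA1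
    have hdiv : Tendsto (fun x : Pt => ENNReal.ofReal (cu χ T x) / NN (au ρ) (cu χ T) x)
        (𝓝[up] ((z, 0) : Pt)) (𝓝 (ENNReal.ofReal (χ z) / NN (ab ρ) χ z)) :=
      ENNReal.Tendsto.div (ENNReal.tendsto_ofReal hclim) (Or.inr hNA0) hNlim (Or.inr ENNReal.ofReal_ne_top)
    exact (ENNReal.tendsto_toReal (ENNReal.div_ne_top ENNReal.ofReal_ne_top hNA0)).comp hdiv

end Pool.Agent.Helper66.QA
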