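import Pool.Agent.Helper86.QA.St1

/-!
# Project QD, part A (MP_d112a4_gt): module VOL, the hyperbolic volume

In the coordinates `(ζ, t)`, `z = t ζ`, the volume is `dζ dt / t`, and the inversion fixes `ζ` up to the reflection
`ζ ↦ - conj ζ`.
-/

set_option autoImplicit false

open MeasureTheory Matrix Set Topology
open scoped ENNReal ComplexConjugate

namespace Pool.Agent.Helper66.QA

open Pool.Agent.Helper86.QA

private theorem lint_smul (r : ℝ) (hr : r ≠ 0) (F : ℂ → ℝ≥0∞) (hF : Measurable F) :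
    ∫⁻ z : ℂ, F ((r : ℂ) * z) = ENNReal.ofReal (1 / r ^ 2) * ∫⁻ z : ℂ, F z := by
  have h1 : ∫⁻ z : ℂ, F ((r : ℂ) * z) = ∫⁻ z, F z ∂(Measure.map (r • · : ℂ → ℂ) volume) := by
    rw [lintegral_map hF (measurable_const_smul r)]
    exact lintegral_congr fun z => by rw [Complex.real_smul]
  rw [h1, Measure.map_addHaar_smul _ hr, lintegral_smul_measure, Complex.finrank_real_complex, smul_eq_mul,
    abs_of_nonneg (by positivity), one_div]

private theorem lint_mul (w : ℂ) (hw : w ≠ 0) (F : ℂ → ℝ≥0∞) (hF : Measurable F) :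
    ∫⁻ z : ℂ, F (w * z) = ENNReal.ofReal (1 / ‖w‖ ^ 2) * ∫⁻ z : ℂ, F z := by
  have hn : ‖w‖ ≠ 0 := norm_ne_zero_iff.2 hw
  let u : Circle := ⟨w / (‖w‖ : ℂ), mem_sphere_zero_iff_norm.2 (by
    rw [norm_div, Complex.norm_real, norm_norm, div_self hn])⟩
  have h1 : ∀ z : ℂ, w * z = (‖w‖ : ℂ) * rotation u z := by
    intro z
    have hc : (‖w‖ : ℂ) ≠ 0 := by exact_mod_cast hn
    rw [rotation_apply]
    show w * z = (‖w‖ : ℂ) * (w / (‖w‖ : ℂ) * z)
    field_simp
  have h2 : ∫⁻ z : ℂ, F (w * z) = ∫⁻ z : ℂ, F ((‖w‖ : ℂ) * rotation u z) :=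
    lintegral_congr fun z => by rw [h1 z]
  rw [h2]
  have h3 : ∫⁻ z : ℂ, F ((‖w‖ : ℂ) * rotation u z) = ∫⁻ z : ℂ, F ((‖w‖ : ℂ) * z) :=
    (LinearIsometryEquiv.measurePreserving (rotation u)).lintegral_comp
      (f := fun z => F ((‖w‖ : ℂ) * z)) (hF.comp (measurable_const_mul _))
  rw [h3, lint_smul _ hn F hF]

private theorem lint_affine (w b : ℂ) (hw : w ≠ 0) (F : ℂ → ℝ≥0∞) (hF : Measurable F) :
    ∫⁻ z : ℂ, F (w * z + b) = ENNReal.ofReal (1 / ‖w‖ ^ 2) * ∫⁻ z : ℂ, F z := by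
  rw [lint_mul w hw (fun z => F (z + b)) (hF.comp (measurable_add_const b)), lintegral_add_right_eq_self]

private theorem lint_scale (l : ℝ) (hl : 0 < l) (G : ℝ → ℝ≥0∞) :
    ∫⁻ t in Ioi (0 : ℝ), ENNReal.ofReal (1 / t ^ 3) * G (l * t) =
      ENNReal.ofReal (l ^ 2) * ∫⁻ t in Ioi (0 : ℝ), ENNReal.ofReal (1 / t ^ 3) * G t := by
  have him : (fun t : ℝ => l * t) '' Ioi 0 = Ioi 0 := by
    ext t
    constructor
    · rintro ⟨s, hs, rfl⟩
      exact mul_pos hl hs
    · intro ht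
      refine ⟨t / l, div_pos ht hl, ?_⟩
      show l * (t / l) = t
      field_simp
  have h := lintegral_image_eq_lintegral_abs_deriv_mul (s := Ioi (0 : ℝ)) (f := fun t => l * t) (f' := fun _ => l)
    measurableSet_Ioi
    (fun x _ => by simpa using ((hasDerivAt_id x).const_mul l).hasDerivWithinAt)
    (fun x _ y _ hxy => mul_left_cancel₀ hl.ne' hxy) (fun t => ENNReal.ofReal (1 / t ^ 3) * G t)
  rw [him] at h
  rw [h, ← lintegral_const_mul' _ _ ENNReal.ofReal_ne_top]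
  apply setLIntegral_congr_fun measurableSet_Ioi
  intro t ht
  have ht0 : (0 : ℝ) < t := ht
  show _ = ENNReal.ofReal (l ^ 2) * (ENNReal.ofReal |l| * (ENNReal.ofReal (1 / (l * t) ^ 3) * G (l * t)))
  rw [← mul_assoc, ← mul_assoc, ← ENNReal.ofReal_mul (by positivity), ← ENNReal.ofReal_mul (by positivity),
    abs_of_pos hl]
  field_simp

private theorem lint_inv (c : ℝ) (hc : 0 < c) (G : ℝ → ℝ≥0∞) :
    ∫⁻ t in Ioi (0 : ℝ), ENNReal.ofReal (1 / t) * G (1 / (c * t)) =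
      ∫⁻ t in Ioi (0 : ℝ), ENNReal.ofReal (1 / t) * G t := by
  have him : (fun t : ℝ => 1 / (c * t)) '' Ioi 0 = Ioi 0 := by
    ext t
    constructor
    · rintro ⟨s, hs, rfl⟩
      have hs0 : (0 : ℝ) < s := hs
      show 0 < 1 / (c * s)
      positivity
    · intro ht
      have ht0 : (0 : ℝ) < t := ht
      refine ⟨1 / (c * t), ?_, ?_⟩
      · show 0 < 1 / (c * t)
        positivity
      · show 1 / (c * (1 / (c * t))) = t
        field_simp
  have h := lintegral_image_eq_lintegral_abs_deriv_mul (s := Ioi (0 : ℝ)) (f := fun t => 1 / (c * t))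
    (f' := fun t => -(1 / (c * t ^ 2)))
    measurableSet_Ioi
    (fun x hx => by
      have hx0 : (0 : ℝ) < x := hx
      have h1 := ((hasDerivAt_id x).const_mul c).inv (by simp only [id]; positivity)
      simp only [id, mul_one] at h1
      have h2 : HasDerivAt (fun t : ℝ => 1 / (c * t)) (-(1 / (c * x ^ 2))) x := by
        refine (h1.congr_of_eventuallyEq ?_).congr_deriv ?_
        · filter_upwards with t
          simp [one_div]
        · field_simp
      exact h2.hasDerivWithinAt)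
    (fun x hx y hy hxy => by
      have hx0 : (0 : ℝ) < x := hx
      have hy0 : (0 : ℝ) < y := hy
      have h1 : 1 / (c * x) = 1 / (c * y) := hxy
      field_simp at h1
      linarith) (fun t => ENNReal.ofReal (1 / t) * G t)
  rw [him] at h
  rw [h]
  apply setLIntegral_congr_fun measurableSet_Ioi
  intro t ht
  have ht0 : (0 : ℝ) < t := ht
  show _ = ENNReal.ofReal |-(1 / (c * t ^ 2))| * (ENNReal.ofReal (1 / (1 / (c * t))) * G (1 / (c * t)))
  rw [← mul_assoc, ← ENNReal.ofReal_mul (abs_nonneg _), abs_neg, abs_of_pos (by positivity)]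
  field_simp

private theorem meas_dens : Measurable (fun x : Pt => ENNReal.ofReal (1 / x.2 ^ 3)) := by
  fun_prop

private theorem vol_eq (f : Pt → ℝ≥0∞) (hf : Measurable f) : ∫⁻ x, f x ∂vol =
    ∫⁻ t in Ioi (0 : ℝ), ENNReal.ofReal (1 / t ^ 3) * ∫⁻ z : ℂ, f (z, t) := by
  have hup : up = (univ : Set ℂ) ×ˢ Ioi (0 : ℝ) := by
    ext x
    simp [up]
  unfold vol
  rw [lintegral_withDensity_eq_lintegral_mul _ meas_dens hf, hup, Measure.volume_eq_prod,
    ← Measure.prod_restrict, Measure.restrict_univ,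
    lintegral_prod_symm' _ (by exact meas_dens.mul hf)]
  apply lintegral_congr
  intro t
  simp only [Pi.mul_apply]
  rw [lintegral_const_mul]
  exact hf.comp (measurable_prodMk_right)

/-- the volume in the coordinates `(ζ, t)`, `z = t ζ` -/
private theorem vol_eq2 (f : Pt → ℝ≥0∞) (hf : Measurable f) : ∫⁻ x, f x ∂vol =
    ∫⁻ ζ : ℂ, ∫⁻ t in Ioi (0 : ℝ), ENNReal.ofReal (1 / t) * f ((t : ℂ) * ζ, t) := by
  rw [vol_eq f hf]
  have hm : Measurable (fun p : ℂ × ℝ => ENNReal.ofReal (1 / p.2) * f ((p.2 : ℂ) * p.1, p.2)) := by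
    apply Measurable.mul
    · fun_prop
    · apply hf.comp
      fun_prop
  rw [lintegral_lintegral_swap hm.aemeasurable]
  apply setLIntegral_congr_fun measurableSet_Ioi
  intro t ht
  have ht0 : (0 : ℝ) < t := ht
  show ENNReal.ofReal (1 / t ^ 3) * ∫⁻ z : ℂ, f (z, t) =
    ∫⁻ ζ : ℂ, ENNReal.ofReal (1 / t) * f ((t : ℂ) * ζ, t)
  have hft : Measurable (fun z : ℂ => f (z, t)) := hf.comp measurable_prodMk_right
  rw [lintegral_const_mul, lint_smul t ht0.ne' (fun z => f (z, t)) hft, ← mul_assoc,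
    ← ENNReal.ofReal_mul (by positivity)]
  · congr 2
    field_simp
  · exact hft.comp (measurable_const_mul _)

private theorem inv_upper (hACT : StACT) (g : SL) (hc : g 1 0 = 0) (f : Pt → ℝ≥0∞) (hf : Measurable f) :
    ∫⁻ x, f (ga g x) ∂vol = ∫⁻ x, f x ∂vol := by
  have hdet : g 0 0 * g 1 1 = 1 := by
    have h := g.det_coe
    rw [Matrix.det_fin_two] at h
    rw [hc, mul_zero, sub_zero] at h
    exact h
  have ha : g 0 0 ≠ 0 := left_ne_zero_of_mul_eq_one hdet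
  have hd : g 1 1 ≠ 0 := right_ne_zero_of_mul_eq_one hdet
  have hga : ∀ x : Pt, ga g x = (g 0 0 ^ 2 * x.1 + g 0 0 * g 0 1, ‖g 0 0‖ ^ 2 * x.2) := by
    intro x
    have hden : den g x = ‖g 1 1‖ ^ 2 := by
      unfold den
      rw [hc]
      simp
    have hn : ‖g 0 0‖ * ‖g 1 1‖ = 1 := by
      rw [← norm_mul, hdet, norm_one]
    have hcj : (‖g 1 1‖ : ℂ) ^ 2 = g 1 1 * conj (g 1 1) := by
      rw [Complex.mul_conj, Complex.normSq_eq_norm_sq]
      push_cast
      rfl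
    have hcj0 : conj (g 1 1) ≠ 0 := (map_ne_zero _).2 hd
    unfold ga
    rw [hden, hc]
    apply Prod.ext
    · show _ = g 0 0 ^ 2 * x.1 + g 0 0 * g 0 1
      push_cast
      rw [hcj]
      simp only [zero_mul, zero_add, map_zero, mul_zero, add_zero]
      rw [div_eq_iff (mul_ne_zero hd hcj0)]
      linear_combination (-(g 0 0 * x.1 * conj (g 1 1)) - g 0 1 * conj (g 1 1)) * hdet
    · show x.2 / ‖g 1 1‖ ^ 2 = ‖g 0 0‖ ^ 2 * x.2
      have hd' : ‖g 1 1‖ ≠ 0 := norm_ne_zero_iff.2 hd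
      rw [div_eq_iff (pow_ne_zero 2 hd')]
      have h2 : (‖g 0 0‖ * ‖g 1 1‖) ^ 2 = 1 := by rw [hn, one_pow]
      linear_combination (-x.2) * h2
  rw [vol_eq (fun x => f (ga g x)) (hf.comp (hACT.2.2.2.1 g).1), vol_eq f hf]
  have hl : 0 < ‖g 0 0‖ ^ 2 := by
    have := norm_pos_iff.2 ha
    positivity
  have h1 : ∀ t : ℝ, ∫⁻ z : ℂ, f (ga g (z, t)) =
      ENNReal.ofReal (1 / ‖g 0 0 ^ 2‖ ^ 2) * ∫⁻ z : ℂ, f (z, ‖g 0 0‖ ^ 2 * t) := by
    intro t
    rw [← lint_affine (g 0 0 ^ 2) (g 0 0 * g 0 1) (pow_ne_zero 2 ha) (fun z => f (z, ‖g 0 0‖ ^ 2 * t))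
      (hf.comp measurable_prodMk_right)]
    exact lintegral_congr fun z => by rw [hga]
  simp only [h1]
  have h2 : ∀ t : ℝ, ENNReal.ofReal (1 / t ^ 3) * (ENNReal.ofReal (1 / ‖g 0 0 ^ 2‖ ^ 2) *
      ∫⁻ z : ℂ, f (z, ‖g 0 0‖ ^ 2 * t)) = ENNReal.ofReal (1 / ‖g 0 0 ^ 2‖ ^ 2) *
      (ENNReal.ofReal (1 / t ^ 3) * ∫⁻ z : ℂ, f (z, ‖g 0 0‖ ^ 2 * t)) := fun t => by ring
  simp only [h2]
  rw [lintegral_const_mul' _ _ ENNReal.ofReal_ne_top,
    lint_scale (‖g 0 0‖ ^ 2) hl (fun u => ∫⁻ z : ℂ, f (z, u)), ← mul_assoc,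
    ← ENNReal.ofReal_mul (by positivity)]
  have h3 : 1 / ‖g 0 0 ^ 2‖ ^ 2 * (‖g 0 0‖ ^ 2) ^ 2 = 1 := by
    rw [norm_pow]
    field_simp
  rw [h3, ENNReal.ofReal_one, one_mul]

private theorem ga_gJ (t : ℝ) (ht : 0 < t) (ζ : ℂ) :
    ga gJ ((t : ℂ) * ζ, t) =
      (((1 / ((1 + ‖ζ‖ ^ 2) * t) : ℝ) : ℂ) * (-conj ζ), 1 / ((1 + ‖ζ‖ ^ 2) * t)) := by
  have hden : den gJ ((t : ℂ) * ζ, t) = (1 + ‖ζ‖ ^ 2) * t ^ 2 := by
    unfold den gJ
    simp only [Matrix.SpecialLinearGroup.coe_mk, Matrix.of_apply, Matrix.cons_val', Matrix.cons_val_zero,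
      Matrix.cons_val_one, Matrix.cons_val_fin_one]
    rw [one_mul, add_zero, norm_mul, Complex.norm_real, norm_one, Real.norm_eq_abs, mul_pow, sq_abs]
    ring
  have hp : (0 : ℝ) < 1 + ‖ζ‖ ^ 2 := by positivity
  have hpc : ((1 + ‖ζ‖ ^ 2 : ℝ) : ℂ) ≠ 0 := by exact_mod_cast hp.ne'
  have htc : (t : ℂ) ≠ 0 := by exact_mod_cast ht.ne'
  unfold ga
  rw [hden]
  apply Prod.ext
  · show ((gJ 0 0 * ((t : ℂ) * ζ) + gJ 0 1) * conj (gJ 1 0 * ((t : ℂ) * ζ) + gJ 1 1) +
      gJ 0 0 * conj (gJ 1 0) * (t : ℂ) ^ 2) / (((1 + ‖ζ‖ ^ 2) * t ^ 2 : ℝ) : ℂ) = _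
    have e1 : gJ 0 0 = 0 := rfl
    have e2 : gJ 0 1 = -1 := rfl
    have e3 : gJ 1 0 = 1 := rfl
    have e4 : gJ 1 1 = 0 := rfl
    rw [e1, e2, e3, e4]
    simp only [zero_mul, zero_add, add_zero, one_mul, map_mul, Complex.conj_ofReal]
    rw [Complex.ofReal_div, Complex.ofReal_mul, Complex.ofReal_mul, Complex.ofReal_pow, Complex.ofReal_one]
    field_simp
  · show t / ((1 + ‖ζ‖ ^ 2) * t ^ 2) = 1 / ((1 + ‖ζ‖ ^ 2) * t)
    field_simp

private theorem inv_gJ (hACT : StACT) (f : Pt → ℝ≥0∞) (hf : Measurable f) :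
    ∫⁻ x, f (ga gJ x) ∂vol = ∫⁻ x, f x ∂vol := by
  rw [vol_eq2 (fun x => f (ga gJ x)) (hf.comp (hACT.2.2.2.1 gJ).1), vol_eq2 f hf]
  have hm : Measurable (fun p : ℂ × ℝ => ENNReal.ofReal (1 / p.2) * f ((p.2 : ℂ) * p.1, p.2)) := by
    apply Measurable.mul
    · fun_prop
    · apply hf.comp
      fun_prop
  have hH : Measurable (fun ζ : ℂ => ∫⁻ t in Ioi (0 : ℝ), ENNReal.ofReal (1 / t) * f ((t : ℂ) * ζ, t)) :=
    hm.lintegral_prod_right'
  have h1 : ∀ ζ : ℂ, ∫⁻ t in Ioi (0 : ℝ), ENNReal.ofReal (1 / t) * f (ga gJ ((t : ℂ) * ζ, t)) =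
      ∫⁻ t in Ioi (0 : ℝ), ENNReal.ofReal (1 / t) * f ((t : ℂ) * (-conj ζ), t) := by
    intro ζ
    rw [← lint_inv (1 + ‖ζ‖ ^ 2) (by positivity) (fun t => f ((t : ℂ) * (-conj ζ), t))]
    apply setLIntegral_congr_fun measurableSet_Ioi
    intro t ht
    show ENNReal.ofReal (1 / t) * f (ga gJ ((t : ℂ) * ζ, t)) = _
    rw [ga_gJ t ht ζ]
  simp only [h1]
  have h2 := (LinearIsometryEquiv.measurePreserving
    (Complex.conjLIE.trans (LinearIsometryEquiv.neg ℝ (E := ℂ)))).lintegral_comp hH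
  rw [← h2]
  exact lintegral_congr fun ζ => rfl

private theorem inv_all (hACT : StACT) (g : SL) (f : Pt → ℝ≥0∞) (hf : Measurable f) :
    ∫⁻ x, f (ga g x) ∂vol = ∫⁻ x, f x ∂vol := by
  by_cases hc : g 1 0 = 0
  · exact inv_upper hACT g hc f hf
  · have hdet : g 0 0 * g 1 1 - g 0 1 * g 1 0 = 1 := by
      have h := g.det_coe
      rw [Matrix.det_fin_two] at h
      exact h
    let n : SL := ⟨!![1, g 0 0 / g 1 0; 0, 1], by simp [Matrix.det_fin_two]⟩
    let h : SL := ⟨!![g 1 0, g 1 1; 0, 1 / g 1 0], by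
      rw [Matrix.det_fin_two]
      simp only [Matrix.of_apply, Matrix.cons_val', Matrix.cons_val_zero, Matrix.cons_val_one,
        Matrix.cons_val_fin_one]
      field_simp
      simp⟩
    have hg : g = n * (gJ * h) := by
      ext i j
      fin_cases i <;> fin_cases j
      · simp [n, h, gJ, Matrix.mul_apply, Fin.sum_univ_two]
        field_simp
      · simp [n, h, gJ, Matrix.mul_apply, Fin.sum_univ_two]
        field_simp
        linear_combination -hdet
      · simp [n, h, gJ, Matrix.mul_apply, Fin.sum_univ_two]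
      · simp [n, h, gJ, Matrix.mul_apply, Fin.sum_univ_two]
    have hm := fun k : SL => (hACT.2.2.2.1 k).1
    have h1 : ∫⁻ x, f (ga g x) ∂vol = ∫⁻ x, f (ga n (ga gJ (ga h x))) ∂vol := by
      apply lintegral_congr_ae
      filter_upwards [ae_up] with x hx
      have h2 : ga h x ∈ up := (hACT.1 h x hx).2.1
      rw [hg, hACT.2.1 n (gJ * h) x hx, hACT.2.1 gJ h x hx]
    rw [h1, inv_upper hACT h rfl (fun y => f (ga n (ga gJ y))) (hf.comp ((hm n).comp (hm gJ))),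
      inv_gJ hACT (fun y => f (ga n y)) (hf.comp (hm n)), inv_upper hACT n rfl f hf]

theorem hVOL (hACT : StACT) : StVOL := by
  refine ⟨vol_eq, inv_all hACT, ?_, ?_⟩
  · intro f hf
    have hm : Measurable (fun x : Pt => f (conj x.1, x.2)) := by
      apply hf.comp
      exact (Complex.continuous_conj.measurable.comp measurable_fst).prodMk measurable_snd
    rw [vol_eq _ hm, vol_eq f hf]
    apply lintegral_congr
    intro t
    congr 1
    have h := (LinearIsometryEquiv.measurePreserving Complex.conjLIE).lintegral_comp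
      (f := fun z => f (z, t)) (hf.comp measurable_prodMk_right)
    rw [← h]
    exact lintegral_congr fun z => rfl
  · intro K hK hKu
    rcases K.eq_empty_or_nonempty with rfl | hne
    · rw [measure_empty]
      exact ENNReal.zero_lt_top
    · obtain ⟨x₀, hx₀, hmin⟩ := hK.exists_isMinOn hne (f := fun x : Pt => x.2) continuous_snd.continuousOn
      have ht : 0 < x₀.2 := hKu hx₀
      unfold vol
      rw [withDensity_apply _ hK.measurableSet, Measure.restrict_restrict hK.measurableSet]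
      have h1 : ∫⁻ x in K ∩ up, ENNReal.ofReal (1 / x.2 ^ 3) ≤
          ∫⁻ x in K ∩ up, ENNReal.ofReal (1 / x₀.2 ^ 3) := by
        apply setLIntegral_mono measurable_const
        intro x hx
        apply ENNReal.ofReal_le_ofReal
        have h2 : x₀.2 ≤ x.2 := hmin hx.1
        exact one_div_le_one_div_of_le (by positivity) (pow_le_pow_left₀ ht.le h2 3)
      refine h1.trans_lt ?_
      rw [setLIntegral_const]
      apply ENNReal.mul_lt_top ENNReal.ofReal_lt_top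
      exact (measure_mono inter_subset_left).trans_lt hK.measure_lt_top

end Pool.Agent.Helper66.QA
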